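import Pool.Agent.Helper8.TNG.Stmts

/-! Row CT. -/

set_option autoImplicit false

namespace Pool.Agent.Helper8.TNG

open Finset

/-- an element of the kind `t` -/
def CT_mk (B M K K' : ℕ) (t : Tok) (i : Fin (cnt B M K K' t)) : El B M K K' := ⟨t, i⟩

theorem CT_fiber (B M K K' : ℕ) (t : Tok) :
    ((Finset.univ : Finset (El B M K K')).filter (fun p => tk p = t)).card = cnt B M K K' t := by
  have h1 : (Finset.univ : Finset (El B M K K')).filter (fun p => tk p = t) =
      (Finset.univ : Finset (Fin (cnt B M K K' t))).image (CT_mk B M K K' t) := by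
    ext p
    rw [Finset.mem_filter, Finset.mem_image]
    constructor
    · rintro ⟨-, h⟩
      obtain ⟨p1, p2⟩ := p
      have h' : p1 = t := h
      subst h'
      exact ⟨p2, Finset.mem_univ _, rfl⟩
    · rintro ⟨i, -, rfl⟩
      exact ⟨Finset.mem_univ _, rfl⟩
  rw [h1, Finset.card_image_of_injective, Finset.card_univ, Fintype.card_fin]
  intro i j hij
  have h2 := congrArg (fun p : El B M K K' => (p : Σ t : Tok, Fin (cnt B M K K' t))) hij
  have := Sigma.mk.inj h2
  exact eq_of_heq this.2

theorem st_CT (h1 : ST_WC) : ST_CT := by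
  intro B M K K' u l hul w hw t
  rw [(h1 _ _).1] at hw
  obtain ⟨hnd, hmem⟩ := hw
  have h2 : (w.map tk).count t = ((Finset.univ \ {u, l}).filter (fun p : El B M K K' => tk p = t)).card := by
    rw [List.count_eq_countP, List.countP_map, List.countP_eq_length_filter,
      ← List.toFinset_card_of_nodup (hnd.filter _)]
    congr 1
    ext p
    rw [List.mem_toFinset, List.mem_filter, Finset.mem_filter, hmem p]
    simp
  have h3 : (Finset.univ \ {u, l}).filter (fun p : El B M K K' => tk p = t) =
      (((Finset.univ : Finset (El B M K K')).filter (fun p => tk p = t)).erase u).erase l := by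
    ext p
    simp only [Finset.mem_filter, Finset.mem_sdiff, Finset.mem_univ, Finset.mem_insert,
      Finset.mem_singleton, Finset.mem_erase, true_and]
    tauto
  rw [h2, h3, Finset.card_erase_eq_ite, Finset.card_erase_eq_ite, CT_fiber]
  have e1 : (u ∈ (Finset.univ : Finset (El B M K K')).filter (fun p => tk p = t)) ↔ tk u = t := by
    simp
  have e2 : (l ∈ ((Finset.univ : Finset (El B M K K')).filter (fun p => tk p = t)).erase u) ↔ tk l = t := by
    simp [hul.symm]
  simp only [e1, e2]
  split_ifs <;> simp

end Pool.Agent.Helper8.TNG
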