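import Pool.Agent.Helper8.TNG.Stmts

/-! Rows PF, LS, PU. -/

set_option autoImplicit false

namespace Pool.Agent.Helper8.TNG

open Finset

open Classical in
theorem PF_card {α : Type} [DecidableEq α] (h1 : ST_WC) (S : Finset α) (l : List α)
    (Q : List α → Prop) (hl : l.Nodup) (hS : ∀ p ∈ l, p ∈ S) :
    ((Wd S).filter (fun w => ∃ r, w = l ++ r ∧ Q r)).card = ((Wd (S \ l.toFinset)).filter Q).card := by
  symm
  refine Finset.card_bij (fun r _ => l ++ r) ?_ ?_ ?_
  · intro r hr
    rw [Finset.mem_filter] at hr ⊢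
    obtain ⟨hr1, hr2⟩ := hr
    rw [(h1 α _).1] at hr1
    refine ⟨((h1 α S).1 _).2 ⟨?_, ?_⟩, r, rfl, hr2⟩
    · rw [List.nodup_append]
      refine ⟨hl, hr1.1, ?_⟩
      intro a ha b hb hab
      subst hab
      have := (hr1.2 a).1 hb
      rw [Finset.mem_sdiff, List.mem_toFinset] at this
      exact this.2 ha
    · intro p
      rw [List.mem_append, hr1.2 p, Finset.mem_sdiff, List.mem_toFinset]
      constructor
      · rintro (h | h)
        · exact hS p h
        · exact h.1
      · intro h
        by_cases hp : p ∈ l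
        · exact Or.inl hp
        · exact Or.inr ⟨h, hp⟩
  · intro a _ b _ hab
    exact List.append_cancel_left hab
  · intro w hw
    rw [Finset.mem_filter] at hw
    obtain ⟨hw1, r, rfl, hr⟩ := hw
    rw [(h1 α _).1] at hw1
    refine ⟨r, ?_, rfl⟩
    rw [Finset.mem_filter]
    refine ⟨((h1 α _).1 _).2 ⟨?_, ?_⟩, hr⟩
    · exact (List.nodup_append.1 hw1.1).2.1
    · intro p
      rw [Finset.mem_sdiff, List.mem_toFinset, ← hw1.2 p, List.mem_append]
      constructor
      · intro hp
        refine ⟨Or.inr hp, fun hp' => ?_⟩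
        exact (List.nodup_append.1 hw1.1).2.2 p hp' p hp rfl
      · rintro ⟨h | h, h'⟩
        · exact absurd h h'
        · exact h

theorem st_PF (h1 : ST_WC) : ST_PF := by
  intro α _ S l Q hl hS
  have hc : (S \ l.toFinset).card = S.card - l.length := by
    rw [Finset.card_sdiff_of_subset, List.toFinset_card_of_nodup hl]
    intro p hp
    exact hS p (List.mem_toFinset.1 hp)
  unfold pr
  rw [PF_card h1 S l Q hl hS, hc]
  have h2 : ((S.card - l.length).factorial : ℝ) ≠ 0 := by exact_mod_cast Nat.factorial_ne_zero _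
  have h3 : ((S.card).factorial : ℝ) ≠ 0 := by exact_mod_cast Nat.factorial_ne_zero _
  field_simp

open Classical in
theorem LS_card {α : Type} [DecidableEq α] (h1 : ST_WC) (S : Finset α) (p : α) (hp : p ∈ S) :
    ((Wd S).filter (fun w => ∃ u, w = u ++ [p])).card = (Wd (S.erase p)).card := by
  symm
  refine Finset.card_bij (fun r _ => r ++ [p]) ?_ ?_ ?_
  · intro r hr
    rw [(h1 α _).1] at hr
    rw [Finset.mem_filter]
    refine ⟨((h1 α S).1 _).2 ⟨?_, ?_⟩, r, rfl⟩
    · rw [List.nodup_append]
      refine ⟨hr.1, List.nodup_singleton p, ?_⟩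
      intro a ha b hb hab
      rw [List.mem_singleton] at hb
      subst hab
      subst hb
      exact absurd ((hr.2 a).1 ha) (Finset.notMem_erase a S)
    · intro q
      rw [List.mem_append, hr.2 q, Finset.mem_erase, List.mem_singleton]
      constructor
      · rintro (h | h)
        · exact h.2
        · rw [h]; exact hp
      · intro h
        by_cases hq : q = p
        · exact Or.inr hq
        · exact Or.inl ⟨hq, h⟩
  · intro a _ b _ hab
    exact List.append_cancel_right hab
  · intro w hw
    rw [Finset.mem_filter] at hw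
    obtain ⟨hw1, r, rfl⟩ := hw
    rw [(h1 α _).1] at hw1
    refine ⟨r, ?_, rfl⟩
    refine ((h1 α _).1 _).2 ⟨(List.nodup_append.1 hw1.1).1, ?_⟩
    intro q
    rw [Finset.mem_erase, ← hw1.2 q, List.mem_append, List.mem_singleton]
    constructor
    · intro hq
      refine ⟨?_, Or.inl hq⟩
      intro hqp
      exact (List.nodup_append.1 hw1.1).2.2 q hq p (List.mem_singleton.2 rfl) hqp
    · rintro ⟨h, h' | h'⟩
      · exact h'
      · exact absurd h' h

theorem st_LS (h1 : ST_WC) : ST_LS := by
  intro α _ S p hp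
  unfold pr
  rw [LS_card h1 S p hp, (h1 α (S.erase p)).2, Finset.card_erase_of_mem hp]
  have hpos : 0 < S.card := Finset.card_pos.2 ⟨p, hp⟩
  obtain ⟨n, hn⟩ : ∃ n, S.card = n + 1 := ⟨S.card - 1, by omega⟩
  rw [hn, Nat.add_sub_cancel, Nat.factorial_succ]
  have h2 : (n.factorial : ℝ) ≠ 0 := by exact_mod_cast Nat.factorial_ne_zero _
  have h3 : ((n : ℝ) + 1) ≠ 0 := by positivity
  push_cast
  field_simp

theorem PU_empty {α ι : Type} [DecidableEq α] (S : Finset α) (Q : ι → List α → Prop) :
    pr S (fun w => ∃ i ∈ (∅ : Finset ι), Q i w) = 0 := by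
  have h : (fun w => ∃ i ∈ (∅ : Finset ι), Q i w) = (fun _ : List α => False) := by
    funext w
    simp
  rw [h]
  unfold pr
  simp

theorem st_PU (_h1 : ST_WC) (h2 : ST_PB) : ST_PU := by
  intro α ι _ S I Q
  classical
  refine ⟨?_, ?_⟩
  · induction I using Finset.induction_on with
    | empty => rw [PU_empty, Finset.sum_empty]
    | insert a I ha ih =>
      rw [Finset.sum_insert ha]
      have h3 : pr S (fun w => ∃ i ∈ insert a I, Q i w) = pr S (fun w => Q a w ∨ ∃ i ∈ I, Q i w) := by
        refine (h2 α S _ _).2.2.2.1 fun w _ => ?_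
        simp only [Finset.exists_mem_insert]
      rw [h3]
      have h4 := (h2 α S (Q a) (fun w => ∃ i ∈ I, Q i w)).2.2.2.2.2.1
      linarith
  · intro hd
    induction I using Finset.induction_on with
    | empty => rw [PU_empty, Finset.sum_empty]
    | insert a I ha ih =>
      rw [Finset.sum_insert ha]
      have h3 : pr S (fun w => ∃ i ∈ insert a I, Q i w) = pr S (fun w => Q a w ∨ ∃ i ∈ I, Q i w) := by
        refine (h2 α S _ _).2.2.2.1 fun w _ => ?_
        simp only [Finset.exists_mem_insert]
      rw [h3, (h2 α S (Q a) (fun w => ∃ i ∈ I, Q i w)).2.2.2.2.2.2.2, ih]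
      · intro w hw i hi j hj hqi hqj
        exact hd w hw i (Finset.mem_insert_of_mem hi) j (Finset.mem_insert_of_mem hj) hqi hqj
      · rintro w hw hqa ⟨i, hi, hqi⟩
        have := hd w hw a (Finset.mem_insert_self _ _) i (Finset.mem_insert_of_mem hi) hqa hqi
        rw [this] at ha
        exact ha hi

end Pool.Agent.Helper8.TNG
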